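import Mathlib
import Pool.Agent.R440.WZ

/-!
# Integrality of the normalised (11k+3) binomial sum

A WZ pair gives the closed form
`∑_{k<n} (11k+3) C(2k,k)² C(3k,k) 64^(n-1-k) = n (2n+1) C(2n,n) ∑_{k<n} t(n,k)`,
`t(n,k) = C(2m,m) (2n+2k)! (3n)! / (2 (n+k)! (2n+k)! (2n+1)!)`, `m = n-k-1`,
and `t(n,k)` is an integer for `n ≥ 2` by Legendre's formula.
-/

set_option autoImplicit false

namespace Pool.Agent.Results.MP_550cbf_nt.Integrality

open Finset Nat Pool.Agent.R440

/-- the summands of the transformed sum -/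
noncomputable def T (n k : ℕ) : ℚ :=
  n * ((3 * n)! : ℚ) * cb ((n : ℤ) - k - 1) * ((2 * n + 2 * k)! : ℚ) /
    (2 * (n ! : ℚ) ^ 2 * ((n + k)! : ℚ) * ((2 * n + k)! : ℚ))

/-- the certificate -/
noncomputable def R (n k : ℕ) : ℚ :=
  - ((2 * n + 1) * (11 * n + 3) + (22 * n + 4) * k - 8 * k ^ 2) * ((3 * n)! : ℚ) *
    cb ((n : ℤ) - k) * ((2 * n + 2 * k)! : ℚ) /
    ((n ! : ℚ) ^ 2 * ((n + k)! : ℚ) * ((2 * n + k + 1)! : ℚ))

theorem wz (n k : ℕ) : T (n + 1) k - 64 * T n k = R n (k + 1) - R n k := by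
  unfold T R
  have e1 : cb (((n + 1 : ℕ) : ℤ) - k - 1) = cb ((n : ℤ) - k) := by
    congr 1; push_cast; ring
  have e2 : cb ((n : ℤ) - (k + 1 : ℕ)) = cb ((n : ℤ) - k - 1) := by
    congr 1; push_cast; ring
  have e3 : ((n : ℚ) - k) * cb ((n : ℤ) - k) = 2 * (2 * ((n : ℚ) - k) - 1) * cb ((n : ℤ) - k - 1) := by
    have := cb_step ((n : ℤ) - k - 1)
    rw [show (n : ℤ) - k - 1 + 1 = (n : ℤ) - k by ring] at this
    push_cast at this
    linear_combination this
  have f1 : ((2 * (n + 1) + 2 * k)! : ℚ) = (2 * n + 2 * k + 2) * (2 * n + 2 * k + 1) * ((2 * n + 2 * k)! : ℚ) := by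
    rw [show 2 * (n + 1) + 2 * k = 2 * n + 2 * k + 1 + 1 by ring, Nat.factorial_succ, Nat.factorial_succ]
    push_cast; ring
  have f2 : ((2 * n + 2 * (k + 1))! : ℚ) = (2 * n + 2 * k + 2) * (2 * n + 2 * k + 1) * ((2 * n + 2 * k)! : ℚ) := by
    rw [show 2 * n + 2 * (k + 1) = 2 * n + 2 * k + 1 + 1 by ring, Nat.factorial_succ, Nat.factorial_succ]
    push_cast; ring
  have f3 : ((3 * (n + 1))! : ℚ) = (3 * n + 3) * (3 * n + 2) * (3 * n + 1) * ((3 * n)! : ℚ) := by
    rw [show 3 * (n + 1) = 3 * n + 1 + 1 + 1 by ring, Nat.factorial_succ, Nat.factorial_succ, Nat.factorial_succ]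
    push_cast; ring
  have f4 : ((n + 1)! : ℚ) = (n + 1) * (n ! : ℚ) := by
    rw [Nat.factorial_succ]; push_cast; ring
  have f5 : ((n + 1 + k)! : ℚ) = (n + k + 1) * ((n + k)! : ℚ) := by
    rw [show n + 1 + k = n + k + 1 by ring, Nat.factorial_succ]; push_cast; ring
  have f6 : ((n + (k + 1))! : ℚ) = (n + k + 1) * ((n + k)! : ℚ) := by
    rw [show n + (k + 1) = n + k + 1 by ring, Nat.factorial_succ]; push_cast; ring
  have f7 : ((2 * (n + 1) + k)! : ℚ) = (2 * n + k + 2) * (2 * n + k + 1) * ((2 * n + k)! : ℚ) := by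
    rw [show 2 * (n + 1) + k = 2 * n + k + 1 + 1 by ring, Nat.factorial_succ, Nat.factorial_succ]
    push_cast; ring
  have f8 : ((2 * n + (k + 1) + 1)! : ℚ) = (2 * n + k + 2) * (2 * n + k + 1) * ((2 * n + k)! : ℚ) := by
    rw [show 2 * n + (k + 1) + 1 = 2 * n + k + 1 + 1 by ring, Nat.factorial_succ, Nat.factorial_succ]
    push_cast; ring
  have f9 : ((2 * n + k + 1)! : ℚ) = (2 * n + k + 1) * ((2 * n + k)! : ℚ) := by
    rw [Nat.factorial_succ]; push_cast; ring
  rw [e1, e2, f1, f2, f3, f4, f5, f6, f7, f8, f9]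
  have z1 : (n ! : ℚ) ≠ 0 := by positivity
  have z2 : ((n + k)! : ℚ) ≠ 0 := by positivity
  have z3 : ((2 * n + k)! : ℚ) ≠ 0 := by positivity
  have z4 : ((n : ℚ) + 1) ≠ 0 := by positivity
  have z5 : ((n : ℚ) + k + 1) ≠ 0 := by positivity
  have z6 : (2 * (n : ℚ) + k + 1) ≠ 0 := by positivity
  have z7 : (2 * (n : ℚ) + k + 2) ≠ 0 := by positivity
  push_cast
  field_simp
  linear_combination (2 * (10 * (n : ℚ) ^ 2 + 3 * n - 1 - (2 * n + 12) * k - 8 * (k : ℚ) ^ 2)) * e3

theorem floor_int (q a b x y : ℤ) (hq : 2 ≤ q) (hx0 : 0 ≤ x) (hx : x < q) (hy0 : 0 ≤ y)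
    (hy : y < q) :
    ((q * a + x) - (q * b + y) - 1) / q + ((q * a + x) - (q * b + y) - 1) / q
      + ((q * a + x) + (q * b + y)) / q + (2 * (q * a + x) + (q * b + y)) / q
      + (2 * (q * a + x) + 1) / q
    ≤ (2 * ((q * a + x) - (q * b + y) - 1)) / q + (2 * (q * a + x) + 2 * (q * b + y)) / q
      + (3 * (q * a + x)) / q := by
  have h0 : q ≠ 0 := by omega
  have hq0 : 0 < q := by omega
  rw [show 2 * (q * a + x) + 1 = (2 * x + 1) + q * (2 * a) by ring,
    show 2 * ((q * a + x) - (q * b + y) - 1) = (2 * (x - y - 1)) + q * (2 * a - 2 * b) by ring,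
    show (q * a + x) - (q * b + y) - 1 = (x - y - 1) + q * (a - b) by ring,
    show (q * a + x) + (q * b + y) = (x + y) + q * (a + b) by ring,
    show 2 * (q * a + x) + (q * b + y) = (2 * x + y) + q * (2 * a + b) by ring,
    show 2 * (q * a + x) + 2 * (q * b + y) = (2 * x + 2 * y) + q * (2 * a + 2 * b) by ring,
    show 3 * (q * a + x) = 3 * x + q * (3 * a) by ring]
  simp only [Int.add_mul_ediv_left _ _ h0]
  obtain ⟨l1, u1, c1, d1⟩ := fl_spec (2 * x + 1) q 0 1 hq0 (by linarith) (by linarith)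
  obtain ⟨l2, u2, c2, d2⟩ := fl_spec (x - y - 1) q (-1) 0 hq0 (by linarith) (by linarith)
  obtain ⟨l3, u3, c3, d3⟩ := fl_spec (x + y) q 0 1 hq0 (by linarith) (by linarith)
  obtain ⟨l4, u4, c4, d4⟩ := fl_spec (2 * x + y) q 0 2 hq0 (by linarith) (by linarith)
  obtain ⟨l5, u5, c5, d5⟩ := fl_spec (3 * x) q 0 2 hq0 (by linarith) (by linarith)
  obtain ⟨l6, u6, c6, d6⟩ := fl_spec (2 * x + 2 * y) q 0 3 hq0 (by linarith) (by linarith)
  obtain ⟨l7, u7, c7, d7⟩ := fl_spec (2 * (x - y - 1)) q (-2) 1 hq0 (by linarith) (by linarith)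
  generalize (2 * x + 1) / q = A at *
  generalize (x - y - 1) / q = B at *
  generalize (x + y) / q = C at *
  generalize (2 * x + y) / q = D at *
  generalize (3 * x) / q = E at *
  generalize (2 * x + 2 * y) / q = F at *
  generalize (2 * (x - y - 1)) / q = G at *
  interval_cases A <;> interval_cases B <;> interval_cases C <;> (try omega) <;>
    interval_cases D <;> (try omega) <;>
    interval_cases E <;> (try omega) <;> interval_cases F <;> (try omega) <;>
    interval_cases G <;> omega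

/-- Legendre criterion, giving integrality of `2 t(n,k)`. -/
theorem dvd_one (n k m : ℕ) (hm : n = k + 1 + m) :
    m ! * m ! * (n + k)! * (2 * n + k)! * (2 * n + 1)! ∣
      (2 * m)! * (2 * n + 2 * k)! * (3 * n)! := by
  have h := prod_fac_dvd [2 * m, 2 * n + 2 * k, 3 * n] [m, m, n + k, 2 * n + k, 2 * n + 1] (by
    intro q hq
    have h := floor_int q (n / q : ℕ) (k / q : ℕ) (n % q : ℕ) (k % q : ℕ) (by exact_mod_cast hq)
      (by positivity) (by exact_mod_cast Nat.mod_lt _ (by omega)) (by positivity)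
      (by exact_mod_cast Nat.mod_lt _ (by omega))
    have hn : ((q : ℤ) * (n / q : ℕ) + (n % q : ℕ)) = n := by exact_mod_cast Nat.div_add_mod n q
    have hkk : ((q : ℤ) * (k / q : ℕ) + (k % q : ℕ)) = k := by exact_mod_cast Nat.div_add_mod k q
    rw [hn, hkk] at h
    have e : ((n : ℤ) - k - 1) = (m : ℤ) := by omega
    rw [e] at h
    have h' : m / q + m / q + (n + k) / q + (2 * n + k) / q + (2 * n + 1) / q ≤
        2 * m / q + (2 * n + 2 * k) / q + (3 * n) / q := by exact_mod_cast h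
    simp only [List.map_cons, List.map_nil, List.sum_cons, List.sum_nil]
    omega)
  simp only [List.map_cons, List.map_nil, List.prod_cons, List.prod_nil, mul_one] at h
  convert h using 1 <;> ring

/-- the 2-adic valuation gains one -/
theorem v2_gain (n k m : ℕ) (hn : 2 ≤ n) (hm : n = k + 1 + m) :
    (m ! * m ! * (n + k)! * (2 * n + k)! * (2 * n + 1)!).factorization 2 + 1
      ≤ ((2 * m)! * (2 * n + 2 * k)! * (3 * n)!).factorization 2 := by
  have hc := Nat.choose_mul_factorial_mul_factorial (n := 3 * n) (k := 2 * n + k) (by omega)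
  rw [show 3 * n - (2 * n + k) = m + 1 by omega] at hc
  have hc2 := congrArg (fun x => Nat.factorization x 2) hc
  have hch : (3 * n).choose (2 * n + k) ≠ 0 := (Nat.choose_pos (by omega)).ne'
  have hm1 : ((m + 1)!).factorization 2 = (m + 1).factorization 2 + (m !).factorization 2 := by
    rw [Nat.factorial_succ, Nat.factorization_mul (by omega) (Nat.factorial_ne_zero _),
      Finsupp.add_apply]
  rw [Nat.factorization_mul (mul_ne_zero hch (Nat.factorial_ne_zero _)) (Nat.factorial_ne_zero _),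
    Nat.factorization_mul hch (Nat.factorial_ne_zero _), Finsupp.add_apply, Finsupp.add_apply,
    hm1] at hc2
  rw [Nat.factorization_mul (by positivity) (Nat.factorial_ne_zero _),
    Nat.factorization_mul (by positivity) (Nat.factorial_ne_zero _),
    Nat.factorization_mul (by positivity) (Nat.factorial_ne_zero _),
    Nat.factorization_mul (by positivity) (Nat.factorial_ne_zero _),
    Nat.factorization_mul (by positivity) (Nat.factorial_ne_zero _),
    Nat.factorization_mul (Nat.factorial_ne_zero _) (Nat.factorial_ne_zero _),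
    Finsupp.add_apply, Finsupp.add_apply, Finsupp.add_apply, Finsupp.add_apply,
    Finsupp.add_apply, Finsupp.add_apply, v2_odd,
    show 2 * n + 2 * k = 2 * (n + k) by ring, v2_even, v2_even]
  rcases Nat.even_or_odd' n with ⟨r, hr | hr⟩
  · have h2 := v2_lt (m := n) (by omega)
    rcases Nat.even_or_odd' k with ⟨l, hl | hl⟩
    · have h1 : 1 ≤ (m + 1).factorization 2 :=
        (Nat.prime_two.dvd_iff_one_le_factorization (by omega)).mp (by omega)
      omega
    · have h1 : 1 ≤ ((3 * n).choose (2 * n + k)).factorization 2 := by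
        have hdiv : 2 ∣ (3 * n).choose (2 * n + k) := by
          have h3 := Nat.add_one_mul_choose_eq (3 * n - 1) (2 * n + k - 1)
          rw [show 3 * n - 1 + 1 = 3 * n by omega, show 2 * n + k - 1 + 1 = 2 * n + k by omega] at h3
          have h4 : 2 ∣ (3 * n).choose (2 * n + k) * (2 * n + k) := by
            rw [← h3]
            exact Dvd.dvd.mul_right (by omega) _
          rcases (Nat.prime_two.dvd_mul.mp h4) with h5 | h5
          · exact h5
          · omega
        exact (Nat.prime_two.dvd_iff_one_le_factorization hch).mp hdiv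
      omega
  · have h2 := v2_lt (m := r) (by omega)
    have h3 : (n !).factorization 2 = (r !).factorization 2 + r := by
      rw [hr, v2_odd]
    omega

/-- integrality of `t(n,k)` -/
theorem dvd_two (n k m : ℕ) (hn : 2 ≤ n) (hm : n = k + 1 + m) :
    ∃ t : ℕ, (2 * m)! * (2 * n + 2 * k)! * (3 * n)!
      = 2 * (m ! * m ! * (n + k)! * (2 * n + k)! * (2 * n + 1)!) * t := by
  obtain ⟨A, hT⟩ := dvd_one n k m hm
  have hD : m ! * m ! * (n + k)! * (2 * n + k)! * (2 * n + 1)! ≠ 0 := by positivity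
  have hT0 : A ≠ 0 := by
    rintro rfl
    rw [mul_zero] at hT
    have : (2 * m)! * (2 * n + 2 * k)! * (3 * n)! ≠ 0 := by positivity
    exact this hT
  have h := v2_gain n k m hn hm
  rw [hT, Nat.factorization_mul hD hT0, Finsupp.add_apply] at h
  have h2 : 2 ∣ A := (Nat.prime_two.dvd_iff_one_le_factorization hT0).mpr (by omega)
  obtain ⟨t, rfl⟩ := h2
  exact ⟨t, by rw [hT]; ring⟩

theorem T_eq (n k m t : ℕ) (hm : n = k + 1 + m)
    (ht : (2 * m)! * (2 * n + 2 * k)! * (3 * n)!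
      = 2 * (m ! * m ! * (n + k)! * (2 * n + k)! * (2 * n + 1)!) * t) :
    T n k = ((n : ℚ) * (2 * n + 1) * ((2 * n).choose n : ℚ)) * t := by
  have h1 : cb ((n : ℤ) - k - 1) = ((2 * m)! : ℚ) / ((m ! : ℚ) * (m ! : ℚ)) := by
    rw [show (n : ℤ) - k - 1 = (m : ℤ) by omega, cb_nat, choose_two_mul]
  have ht' : ((2 * m)! : ℚ) * ((2 * n + 2 * k)! : ℚ) * ((3 * n)! : ℚ)
      = 2 * ((m ! : ℚ) * (m ! : ℚ) * ((n + k)! : ℚ) * ((2 * n + k)! : ℚ) *
        ((2 * n + 1) * ((2 * n)! : ℚ))) * t := by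
    rw [Nat.factorial_succ (2 * n)] at ht
    exact_mod_cast ht
  have z1 : (m ! : ℚ) ≠ 0 := by positivity
  have z2 : (n ! : ℚ) ≠ 0 := by positivity
  have z3 : ((n + k)! : ℚ) ≠ 0 := by positivity
  have z4 : ((2 * n + k)! : ℚ) ≠ 0 := by positivity
  unfold T
  rw [h1, choose_two_mul]
  field_simp
  linear_combination (n : ℚ) * ht'

theorem R_zero (n : ℕ) : R n 0
    = - ((11 * n + 3) * ((2 * n).choose n : ℚ) ^ 2 * ((3 * n).choose n : ℚ)) := by
  have h6 : ((2 * n).choose n : ℚ) = ((2 * n)! : ℚ) / ((n ! : ℚ) * (n ! : ℚ)) := choose_two_mul n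
  have h7 : ((3 * n).choose n : ℚ) = ((3 * n)! : ℚ) / ((n ! : ℚ) * ((2 * n)! : ℚ)) := by
    rw [Nat.cast_choose ℚ (by omega : n ≤ 3 * n)]
    rw [show 3 * n - n = 2 * n by omega]
  have h8 : cb ((n : ℤ) - (0 : ℕ)) = ((2 * n)! : ℚ) / ((n ! : ℚ) * (n ! : ℚ)) := by
    rw [← choose_two_mul, ← cb_nat]; simp
  unfold R
  rw [h8, h6, h7]
  have z2 : (n ! : ℚ) ≠ 0 := by positivity
  have z3 : ((2 * n)! : ℚ) ≠ 0 := by positivity
  have z4 : (2 * (n : ℚ) + 1) ≠ 0 := by positivity
  rw [show 2 * n + 0 + 1 = 2 * n + 1 by ring, Nat.factorial_succ]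
  simp only [Nat.cast_zero, mul_zero, add_zero]
  push_cast
  field_simp
  ring

theorem R_top (n : ℕ) : R n (n + 1) = 0 := by
  unfold R
  rw [cb_neg (by push_cast; omega : (n : ℤ) - ((n + 1 : ℕ) : ℤ) < 0)]
  ring

theorem T_top (n : ℕ) : T n n = 0 := by
  unfold T
  rw [cb_neg (by omega : (n : ℤ) - n - 1 < 0)]
  ring

/-- Q1: for `n ≥ 2` the sum is divisible by `n (2n+1) C(2n,n)`. -/
theorem result (n : ℕ) (hn : 2 ≤ n) :
    n * (2 * n + 1) * (2 * n).choose n ∣
      ∑ k ∈ range n, (11 * k + 3) * (2 * k).choose k ^ 2 * (3 * k).choose k * 64 ^ (n - 1 - k) := by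
  have hex : ∀ k ∈ range n, ∃ t : ℕ, T n k = ((n : ℚ) * (2 * n + 1) * ((2 * n).choose n : ℚ)) * t := by
    intro k hk
    have hk' := Finset.mem_range.mp hk
    obtain ⟨t, ht⟩ := dvd_two n k (n - k - 1) hn (by omega)
    exact ⟨t, T_eq n k (n - k - 1) t (by omega) ht⟩
  choose! t ht using hex
  have hS := wz_sum 64 (fun k => (11 * k + 3) * ((2 * k).choose k : ℚ) ^ 2 * ((3 * k).choose k : ℚ))
    T R (fun n k _ => wz n k) R_zero R_top T_top n
  have hR : ((∑ k ∈ range n, (11 * k + 3) * (2 * k).choose k ^ 2 * (3 * k).choose k *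
      64 ^ (n - 1 - k) : ℕ) : ℚ)
      = ((n * (2 * n + 1) * (2 * n).choose n * ∑ k ∈ range n, t k : ℕ) : ℚ) := by
    push_cast
    rw [hS, Finset.mul_sum]
    exact Finset.sum_congr rfl fun k hk => ht k hk
  exact ⟨_, by exact_mod_cast hR⟩

end Pool.Agent.Results.MP_550cbf_nt.Integrality
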